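import Pool.Agent.MP_c6cf52_lc.Defs

namespace Pool.Agent.MP_e34318_lc

open Pool.Agent.MP_c6cf52_lc

universe u

variable {M : Type u} (E : M → M → Prop)

/-- `p` is the unordered pair of `a` and `b`. -/
def IsUPair (p a b : M) : Prop := ∀ z, E z p ↔ z = a ∨ z = b

/-- `a` is nonempty and has no largest element. -/
def IsLim (a : M) : Prop := (∃ x, E x a) ∧ ∀ x, E x a → ∃ y, E y a ∧ E x y

/-- `w` is the least nonzero limit ordinal. -/
def IsOmega (w : M) : Prop := IsOrd E w ∧ IsLim E w ∧ ∀ x, E x w → ¬ IsLim E x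

/-- `c` takes the value `i` at every two-element subset of `A`. -/
def Homog (c A i : M) : Prop :=
  ∀ a b p, E a A → E b A → a ≠ b → IsUPair E p a b → App E c p i

/-- The partition relation `k → (k, t)^2`. -/
def Arrow (k t : M) : Prop :=
  ∀ D zero one two c, (∀ p, E p D ↔ ∃ a b, E a k ∧ E b k ∧ a ≠ b ∧ IsUPair E p a b) →
    (∀ x, ¬ E x zero) → (∀ x, E x one ↔ x = zero) → IsUPair E two zero one → IsFun E c D two →
    (∃ A, (∀ x, E x A → E x k) ∧ (∃ f, IsInj E f k A) ∧ Homog E c A zero) ∨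
    (∃ B, (∀ x, E x B → E x k) ∧ HasOtp E B t ∧ Homog E c B one)

end Pool.Agent.MP_e34318_lc
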