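import Pool.Agent.MP_c6cf52_lc.Ground

namespace Pool.Agent.MP_e34318_lc

open Cardinal Set Pool.Agent.MP_c6cf52_lc

/-! ### The first uncountable ordinal -/

abbrev W : Type := (ℵ_ 1).ord.ToType

theorem W.ct_Iio (a : W) : (Iio a).Countable := by
  rw [← le_aleph0_iff_set_countable, ← Order.lt_succ_iff, succ_aleph0]
  simpa using mk_Iio_lt a (by simp)

theorem W.ct_Iic (a : W) : (Iic a).Countable := by
  rw [← Iio_insert]
  exact (W.ct_Iio a).insert a

theorem W.mk : #W = ℵ_ 1 := Cardinal.mk_ord_toType _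

theorem W.mk_le : #W ≤ 𝔠 := by rw [W.mk]; exact aleph_one_le_continuum

theorem W.bound {s : Set W} (hs : s.Countable) : ∃ b, ∀ x ∈ s, x < b := by
  by_contra h
  push Not at h
  have h₁ : (⋃ x ∈ s, Iic x).Countable := hs.biUnion fun x _ => W.ct_Iic x
  have h₂ : (⋃ x ∈ s, Iic x) = Set.univ := by
    refine eq_univ_of_forall fun b => ?_
    obtain ⟨x, hx, hb⟩ := h b
    exact mem_biUnion hx hb
  rw [h₂, ← le_aleph0_iff_set_countable, mk_univ, W.mk] at h₁
  exact aleph0_lt_aleph_one.not_ge h₁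

theorem W.exists_gt (a : W) : ∃ b, a < b := by
  obtain ⟨b, hb⟩ := W.bound (countable_singleton a)
  exact ⟨b, hb a rfl⟩

instance : Nonempty W := ⟨(W.bound countable_empty).choose⟩

noncomputable def W.bot : W := wellFounded_lt.min univ univ_nonempty

theorem W.bot_le (a : W) : W.bot ≤ a :=
  not_lt.1 (wellFounded_lt.not_lt_min univ (mem_univ a))

theorem exists_rank {T : Type} {R : T → T → Prop} (wf : WellFounded R)
    (hc : ∀ b, {a | R a b}.Countable) : ∃ rk : T → W, ∀ a b, R a b → rk a < rk b := by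
  classical
  have hb : ∀ b (ih : ∀ a, R a b → W), ∃ w, ∀ a (h : R a b), ih a h < w := by
    intro b ih
    have := (hc b).to_subtype
    obtain ⟨w, hw⟩ := W.bound (countable_range fun a : {a | R a b} => ih a.1 a.2)
    exact ⟨w, fun a h => hw _ ⟨⟨a, h⟩, rfl⟩⟩
  choose F hF using hb
  refine ⟨wf.fix F, fun a b h => ?_⟩
  rw [wf.fix_eq F b]
  exact hF b (fun y _ => wf.fix F y) a h

/-! ### The singular cardinal -/

noncomputable def lam (i : W) : Cardinal.{0} := ℶ_ (Ordinal.typein (α := W) (· < ·) i + 1)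

theorem lam_strictMono : StrictMono lam := by
  intro i j h
  unfold lam
  rw [beth_lt_beth]
  have := (Ordinal.typein_lt_typein (α := W) (· < ·)).2 h
  simpa using this

theorem c_le_lam (i : W) : 𝔠 ≤ lam i := by
  unfold lam
  rw [← beth_one, beth_le_beth]
  exact le_add_self

noncomputable def kap : Cardinal.{0} := ⨆ i, lam i

theorem lam_lt_kap (i : W) : lam i < kap := by
  obtain ⟨j, hj⟩ := W.exists_gt i
  exact (lam_strictMono hj).trans_le (le_ciSup bddAbove_of_small j)

theorem c_lt_kap : 𝔠 < kap := (c_le_lam W.bot).trans_lt (lam_lt_kap _)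

theorem aleph0_le_kap : ℵ₀ ≤ kap := aleph0_le_continuum.trans c_lt_kap.le

abbrev X : Type := kap.ord.ToType

theorem X.mk : #X = kap := Cardinal.mk_ord_toType _

theorem X.mk_Iio (x : X) : #(Iio x) < kap := by simpa using mk_Iio_lt x (by simp)

theorem lev_ex (x : X) : {i | #(Iio x) < lam i}.Nonempty :=
  exists_lt_of_lt_ciSup (X.mk_Iio x)

noncomputable def lev (x : X) : W := wellFounded_lt.min _ (lev_ex x)

theorem lt_lam_lev (x : X) : #(Iio x) < lam (lev x) := wellFounded_lt.min_mem _ (lev_ex x)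

theorem lev_mono : Monotone lev := by
  intro x y h
  refine not_lt.1 (wellFounded_lt.not_lt_min {i | #(Iio x) < lam i} ?_)
  exact (mk_le_mk_of_subset (Iio_subset_Iio h)).trans_lt (lt_lam_lev y)

theorem exists_mk_Iio {c : Cardinal.{0}} (hc : c < kap) : ∃ y : X, #(Iio y) = c := by
  have h : c.ord < Ordinal.type (α := X) (· < ·) := by
    rw [Ordinal.type_toType]; exact ord_lt_ord.2 hc
  refine ⟨Ordinal.enum (α := X) (· < ·) ⟨c.ord, h⟩, ?_⟩
  have := Ordinal.card_typein (r := fun a b : X => a < b) (Ordinal.enum (α := X) (· < ·) ⟨c.ord, h⟩)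
  rw [Ordinal.typein_enum, card_ord] at this
  exact this.symm

theorem mk_lev_le (i : W) : #{x | lev x ≤ i} < kap := by
  obtain ⟨y, hy⟩ := exists_mk_Iio (lam_lt_kap i)
  refine lt_of_le_of_lt (mk_le_mk_of_subset fun x hx => ?_) (X.mk_Iio y)
  by_contra h
  have h1 : y ≤ x := not_lt.1 h
  have h2 := (mk_le_mk_of_subset (Iio_subset_Iio h1)).trans_lt (lt_lam_lev x)
  rw [hy] at h2
  exact h2.not_ge (lam_strictMono.monotone hx)

theorem exists_not_mem {s : Set X} (hs : #s < kap) : ∃ x, x ∉ s := by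
  by_contra h
  push Not at h
  rw [eq_univ_of_forall h, mk_univ, X.mk] at hs
  exact lt_irrefl _ hs

theorem X.bound {s : Set X} (hs : s.Countable) : ∃ b, ∀ x ∈ s, x < b := by
  obtain ⟨i, hi⟩ := W.bound (hs.image lev)
  obtain ⟨b, hb⟩ := exists_not_mem (mk_lev_le i)
  refine ⟨b, fun x hx => ?_⟩
  by_contra h
  exact hb ((lev_mono (not_lt.1 h)).trans (hi _ ⟨x, hx, rfl⟩).le)

theorem exists_inf : ∃ x : X, (Iio x).Infinite := by
  obtain ⟨y, hy⟩ := exists_mk_Iio (aleph0_le_continuum.trans_lt c_lt_kap)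
  refine ⟨y, ?_⟩
  rw [← Set.infinite_coe_iff, Cardinal.infinite_iff, hy]

/-- The element of `X` at position omega. -/
noncomputable def om : X := wellFounded_lt.min {x | (Iio x).Infinite} exists_inf

theorem om_inf : (Iio om).Infinite :=
  wellFounded_lt.min_mem {x : X | (Iio x).Infinite} exists_inf

theorem fin_of_lt {y : X} (h : y < om) : (Iio y).Finite := by
  by_contra h'
  exact wellFounded_lt.not_lt_min {x : X | (Iio x).Infinite} h' h

theorem om_between {y : X} (h : y < om) : ∃ x, y < x ∧ x < om := by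
  have : (Iic y).Finite := by
    rw [← Iio_insert]; exact (fin_of_lt h).insert _
  obtain ⟨x, hx, h⟩ := om_inf.exists_notMem_finite this
  exact ⟨x, not_le.1 h, hx⟩

theorem om_ct : (Iio om).Countable := by
  have : Iio om ⊆ ⋃ y ∈ Iio om, Iio y := fun x hx => by
    obtain ⟨y, h1, h2⟩ := om_between hx
    exact mem_biUnion h2 h1
  by_contra hn
  obtain ⟨y, hy⟩ := exists_mk_Iio (aleph0_le_continuum.trans_lt c_lt_kap)
  have h1 : (Iio y).Infinite := by rw [← Set.infinite_coe_iff, Cardinal.infinite_iff, hy]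
  have h2 : om ≤ y := not_lt.1 (wellFounded_lt.not_lt_min {x : X | (Iio x).Infinite} h1)
  apply hn
  refine Set.Countable.mono (Iio_subset_Iio h2) ?_
  rw [← le_aleph0_iff_set_countable, hy]

theorem exists_seq_om : ∃ e : ℕ → X, StrictMono e ∧ ∀ n, e n < om := by
  obtain ⟨x0, hx0⟩ := om_inf.nonempty
  have : Nonempty X := ⟨x0⟩
  choose! f hf using fun y (h : y < om) => om_between h
  let e : ℕ → X := fun n => Nat.rec x0 (fun _ y => f y) n
  have he : ∀ n, e n < om := by
    intro n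
    induction n with
    | zero => exact hx0
    | succ n ih => exact (hf _ ih).2
  exact ⟨e, strictMono_nat_of_lt_succ fun n => (hf _ (he n)).1, he⟩

/-! ### A closure lemma and a root lemma -/

theorem exists_closed_set {Y : Type} (F : Set Y → Set Y) (hF : ∀ r, r.Countable → #(F r) ≤ 𝔠) :
    ∃ U : Set Y, #U ≤ 𝔠 ∧ ∀ r, r.Countable → r ⊆ U → F r ⊆ U := by
  classical
  have hs : ∀ r : Set Y, ∃ e : ℝ → Option Y, r.Countable → ∀ y ∈ F r, ∃ z, e z = some y := by
    intro r
    by_cases hr : r.Countable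
    · have h := hF r hr
      rw [← mk_real] at h
      obtain ⟨j⟩ := h
      refine ⟨fun z => if h : ∃ y, j y = z then some h.choose.1 else none, fun _ y hy =>
        ⟨j ⟨y, hy⟩, ?_⟩⟩
      have h : ∃ y', j y' = j ⟨y, hy⟩ := ⟨_, rfl⟩
      simp only [dif_pos h]
      rw [j.injective h.choose_spec]
    · exact ⟨fun _ => none, fun h => absurd h hr⟩
  choose e he using hs
  let β : Option ℝ → Type := fun b => Option.casesOn b Empty (fun _ => ℕ)
  have hβ : ∀ b, Countable (β b) := fun b => by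
    cases b
    · exact inferInstanceAs (Countable Empty)
    · exact inferInstanceAs (Countable ℕ)
  have hW : #(WType β) ≤ 𝔠 := by
    refine WType.cardinalMk_le_of_le ((sum_le_sum _ (fun _ => 𝔠) fun b => ?_).trans ?_)
    · have h1 : #(β b) ≤ ℵ₀ := @mk_le_aleph0 _ (hβ b)
      exact (power_le_power_left continuum_ne_zero h1).trans (by simp)
    · rw [sum_const', mk_option, mk_real, add_one_eq aleph0_le_continuum]
      simp
  let ev : WType β → Option Y := WType.elim (Option Y) (fun z =>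
    Option.casesOn (motive := fun _ => Option Y) z.1 none
      (fun t => e {y | ∃ n, z.2 n = some y} t))
  have hev : ∀ (t : ℝ) (f : ℕ → WType β),
      ev (WType.mk (some t) f) = e {y | ∃ n, ev (f n) = some y} t := fun t f => rfl
  have hev0 : ev (WType.mk none Empty.elim) = none := rfl
  refine ⟨{y | ∃ w, ev w = some y}, ?_, fun r hr hU y hy => ?_⟩
  · refine le_trans ?_ hW
    refine mk_le_of_injective (f := fun y : {y | ∃ w, ev w = some y} => y.2.choose) ?_
    intro y y' h
    have h1 := y.2.choose_spec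
    have h2 := y'.2.choose_spec
    simp only at h
    rw [h, h2] at h1
    exact Subtype.ext (Option.some.inj h1).symm
  · obtain ⟨f, hf⟩ : ∃ f : ℕ → WType β, {y | ∃ n, ev (f n) = some y} = r := by
      rcases r.eq_empty_or_nonempty with rfl | hne
      · exact ⟨fun _ => WType.mk none Empty.elim, by simp [hev0]⟩
      · obtain ⟨g, rfl⟩ := hr.exists_eq_range hne
        choose f hf using fun n => hU (mem_range_self n)
        refine ⟨f, Set.ext fun y => ?_⟩
        simp only [mem_ofPred_eq, hf, Option.some.injEq, mem_range]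
    obtain ⟨z, hz⟩ := he r hr y hy
    exact ⟨WType.mk (some z) f, by rw [hev, hf, hz]⟩

theorem root_lemma {Y Y' I Θ : Type} (S : I → Set Y) (hS : ∀ i, (S i).Countable) (pt : I → Y')
    (hpt : 𝔠 < #(range pt)) (T : Set Y → I → Θ)
    (hT : ∀ r, r.Countable → #(range (T r)) ≤ 𝔠) :
    ∃ r : Set Y, ∃ t : Θ, ∀ Z : Set Y, Z.Countable → ∀ Z' : Set Y', Z'.Countable →
      ∃ i, pt i ∉ Z' ∧ S i ∩ Z ⊆ r ∧ r ⊆ S i ∧ T r i = t := by
  by_contra h
  push Not at h
  choose Z hZ Z' hZ' H using h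
  obtain ⟨U, hU, hcl⟩ := exists_closed_set (fun r => ⋃ t : range (T r), Z r t.1)
    (fun r hr => mk_iUnion_le_c (hT r hr) _ fun t => ct_le (hZ _ _))
  let U' : Set Y' := ⋃ r : {t : Set Y | t ⊆ U ∧ t.Countable}, ⋃ t : range (T r.1), Z' r.1 t.1
  have hU' : #U' ≤ 𝔠 := mk_iUnion_le_c (mk_ct_subsets U hU) _ fun r =>
    mk_iUnion_le_c (hT r.1 r.2.2) _ fun t => ct_le (hZ' _ _)
  obtain ⟨i, hi⟩ : ∃ i, pt i ∉ U' := by
    by_contra h
    push Not at h
    exact hpt.not_ge ((mk_le_mk_of_subset (by rintro _ ⟨i, rfl⟩; exact h i)).trans hU')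
  have hr : (S i ∩ U).Countable := (hS i).mono inter_subset_left
  refine H (S i ∩ U) (T (S i ∩ U) i) i (fun h => hi ?_) (fun y hy => ⟨hy.1, ?_⟩)
    inter_subset_left rfl
  · exact mem_iUnion.2 ⟨⟨S i ∩ U, inter_subset_right, hr⟩, mem_iUnion.2 ⟨⟨_, i, rfl⟩, h⟩⟩
  · exact hcl _ hr inter_subset_right (mem_iUnion.2 ⟨⟨_, i, rfl⟩, hy.2⟩)

theorem exists_big_fiber (γ : X → X) (h : #(range γ) < kap) : ∃ y, 𝔠 < #{β | γ β = y} := by
  by_contra h'
  push Not at h'
  have h1 : (univ : Set X) = ⋃ y : range γ, {β | γ β = y.1} := by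
    ext β; simp
  have h2 : #(univ : Set X) ≤ #(range γ) * 𝔠 := by
    rw [h1]
    refine mk_iUnion_le_sum_mk.trans ((sum_le_sum _ (fun _ => 𝔠) fun y : range γ => h' y.1).trans ?_)
    rw [sum_const']
  rw [mk_univ, X.mk] at h2
  exact (mul_lt_of_lt aleph0_le_kap h c_lt_kap).not_ge h2

end Pool.Agent.MP_e34318_lc
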