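import Pool.Agent.MP_e34318_lc.Ground

namespace Pool.Agent.MP_e34318_lc

open Cardinal Set Pool.Agent.MP_c6cf52_lc

/-- `s` is a clique of neighbours below `x`. -/
def Clq (a : Set X) (G : X → X → Prop) (x : X) (s : Finset X) : Prop :=
  x ∈ a ∧ (∀ y ∈ s, G x y) ∧ ∀ y ∈ s, ∀ z ∈ s, z < y → G y z

theorem Clq.mono {a : Set X} {G : X → X → Prop} {x : X} {s s' : Finset X} (h : Clq a G x s')
    (hs : s ⊆ s') : Clq a G x s :=
  ⟨h.1, fun y hy => h.2.1 y (hs hy), fun y hy z hz => h.2.2 y (hs hy) z (hs hz)⟩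

/-- Conditions. -/
structure Cond where
  a : Set X
  h : W
  G : X → X → Prop
  c : X → Set W
  ρ : X → Finset X → W ×ₗ W
  a_ct : a.Countable
  lev_le : ∀ x ∈ a, lev x ≤ h
  G_sub : ∀ x y, G x y → x ∈ a ∧ y ∈ a ∧ y < x
  c_le : ∀ y ∈ a, ∀ η ∈ c y, η ≤ h
  dec : ∀ x s s', Clq a G x s' → s ⊂ s' → ρ x s' < ρ x s
  prom : ∀ x s, Clq a G x s → ∀ η ≤ lev x, (∀ y ∈ s, η ∈ c y) → η ≤ (ofLex (ρ x s)).1

namespace Cond

abbrev Cl (p : Cond) (x : X) (s : Finset X) : Prop := Clq p.a p.G x s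

theorem Cl.sub {p : Cond} {x : X} {s : Finset X} (h : p.Cl x s) {y : X} (hy : y ∈ s) : y ∈ p.a :=
  (p.G_sub _ _ (h.2.1 y hy)).2.1

theorem Cl.lt {p : Cond} {x : X} {s : Finset X} (h : p.Cl x s) {y : X} (hy : y ∈ s) : y < x :=
  (p.G_sub _ _ (h.2.1 y hy)).2.2

structure Ext (q p : Cond) : Prop where
  a : p.a ⊆ q.a
  h : p.h ≤ q.h
  G : ∀ x ∈ p.a, ∀ y ∈ p.a, (q.G x y ↔ p.G x y)
  c : ∀ y ∈ p.a, ∀ η ≤ p.h, (η ∈ q.c y ↔ η ∈ p.c y)
  ρ : ∀ x s, p.Cl x s → q.ρ x s = p.ρ x s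

theorem Ext.G' {q p : Cond} (h : Ext q p) {x y : X} (e : p.G x y) : q.G x y :=
  (h.G x (p.G_sub _ _ e).1 y (p.G_sub _ _ e).2.1).2 e

theorem Ext.cl {q p : Cond} (h : Ext q p) {x : X} {s : Finset X} (e : p.Cl x s) : q.Cl x s :=
  ⟨h.a e.1, fun y hy => h.G' (e.2.1 y hy), fun y hy z hz l => h.G' (e.2.2 y hy z hz l)⟩

theorem Ext.cl' {q p : Cond} (h : Ext q p) {x : X} {s : Finset X} (e : q.Cl x s) (hx : x ∈ p.a)
    (hs : ∀ y ∈ s, y ∈ p.a) : p.Cl x s :=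
  ⟨hx, fun y hy => (h.G x hx y (hs y hy)).1 (e.2.1 y hy),
    fun y hy z hz l => (h.G y (hs y hy) z (hs z hz)).1 (e.2.2 y hy z hz l)⟩

instance : Preorder Cond where
  le := Ext
  le_refl p := ⟨Subset.rfl, le_rfl, fun _ _ _ _ => Iff.rfl, fun _ _ _ _ => Iff.rfl,
    fun _ _ _ => rfl⟩
  le_trans r q p h₁ h₂ :=
    ⟨h₂.a.trans h₁.a, h₂.h.trans h₁.h,
      fun x hx y hy => (h₁.G x (h₂.a hx) y (h₂.a hy)).trans (h₂.G x hx y hy),
      fun y hy η hη => (h₁.c y (h₂.a hy) η (hη.trans h₂.h)).trans (h₂.c y hy η hη),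
      fun x s h => (h₁.ρ x s (h₂.cl h)).trans (h₂.ρ x s h)⟩

noncomputable instance : OrderTop Cond where
  top := ⟨∅, W.bot, fun _ _ => False, fun _ => ∅, fun _ _ => toLex (W.bot, W.bot),
    countable_empty, by simp, by simp, by simp, fun _ _ _ h => h.1.elim, fun _ _ h => h.1.elim⟩
  le_top p := ⟨empty_subset _, W.bot_le _, fun _ h => h.elim, fun _ h => h.elim,
    fun _ _ h => h.1.elim⟩

theorem add_point (p : Cond) (x : X) : ∃ q ≤ p, x ∈ q.a := by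
  classical
  by_cases hx : x ∈ p.a
  · exact ⟨p, le_rfl, hx⟩
  have hcl : ∀ z s, Clq (insert x p.a) p.G z s → (z = x ∧ s = ∅) ∨ (z ≠ x ∧ p.Cl z s) := by
    intro z s h
    by_cases hz : z = x
    · refine Or.inl ⟨hz, Finset.eq_empty_of_forall_notMem fun y hy => hx ?_⟩
      exact hz ▸ (p.G_sub _ _ (h.2.1 y hy)).1
    · exact Or.inr ⟨hz, h.1.resolve_left hz, h.2⟩
  refine ⟨⟨insert x p.a, max p.h (lev x), p.G, fun y => if y ∈ p.a then p.c y else ∅,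
    fun z s => if z = x then toLex (lev x, W.bot) else p.ρ z s, p.a_ct.insert x, ?_, ?_, ?_, ?_, ?_⟩,
    ⟨subset_insert _ _, le_max_left _ _, fun _ _ _ _ => Iff.rfl, fun y hy η _ => by simp [hy],
      fun z s h => if_neg fun e : z = x => hx (e ▸ h.1)⟩, mem_insert _ _⟩
  · rintro z (rfl | hz)
    exacts [le_max_right _ _, (p.lev_le z hz).trans (le_max_left _ _)]
  · intro z y h
    exact ⟨Or.inr (p.G_sub _ _ h).1, Or.inr (p.G_sub _ _ h).2.1, (p.G_sub _ _ h).2.2⟩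
  · intro y _ η hη
    by_cases hy : y ∈ p.a
    · simp only [if_pos hy] at hη
      exact (p.c_le y hy η hη).trans (le_max_left _ _)
    · simp [hy] at hη
  · intro z s s' h hs
    rcases hcl z s' h with ⟨-, rfl⟩ | ⟨hz, h⟩
    · exact absurd hs (Finset.not_ssubset_empty s)
    · simp only [if_neg hz]; exact p.dec z s s' h hs
  · intro z s h η hη hc
    rcases hcl z s h with ⟨rfl, -⟩ | ⟨hz, h⟩
    · simpa using hη
    · simp only [if_neg hz]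
      refine p.prom z s h η hη fun y hy => ?_
      simpa [h.sub hy] using hc y hy

theorem add_two (p : Cond) (x y : X) : ∃ q ≤ p, x ∈ q.a ∧ y ∈ q.a := by
  obtain ⟨q, hq, hx⟩ := p.add_point x
  obtain ⟨r, hr, hy⟩ := q.add_point y
  exact ⟨r, hr.trans hq, hr.a hx, hy⟩

theorem bump (p : Cond) (h1 : W) (hh : p.h < h1) :
    ∃ q ≤ p, q.h = h1 ∧ ∀ y, h1 ∈ q.c y := by
  refine ⟨⟨p.a, h1, p.G, fun y => insert h1 (p.c y), p.ρ, p.a_ct,
    fun x hx => (p.lev_le x hx).trans hh.le, p.G_sub, ?_, p.dec, ?_⟩,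
    ⟨Subset.rfl, hh.le, fun _ _ _ _ => Iff.rfl, fun y _ η hη => ?_, fun _ _ _ => rfl⟩, rfl,
    fun y => mem_insert _ _⟩
  · rintro y hy η (rfl | hη)
    exacts [le_rfl, (p.c_le y hy η hη).trans hh.le]
  · intro x s h η hη hc
    refine p.prom x s h η hη fun y hy => (hc y hy).resolve_left ?_
    exact ((hη.trans (p.lev_le x h.1)).trans_lt hh).ne
  · exact ⟨fun h => h.resolve_left (hη.trans_lt hh).ne, Or.inr⟩

theorem closed (s : ℕ → Cond) (hs : Antitone s) : ∃ q, ∀ n, q ≤ s n := by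
  classical
  have hle : ∀ {n m}, n ≤ m → Ext (s m) (s n) := fun h => hs h
  obtain ⟨h, hh⟩ := W.bound (countable_range fun n => (s n).h)
  have hcl : ∀ x t, Clq (⋃ n, (s n).a) (fun x y => ∃ n, (s n).G x y) x t → ∃ n, (s n).Cl x t := by
    intro x t H
    obtain ⟨n₀, hn₀⟩ := mem_iUnion.1 H.1
    have : ∀ y ∈ t, ∃ n, y ∈ (s n).a := fun y hy => by
      obtain ⟨n, hn⟩ := H.2.1 y hy
      exact ⟨n, ((s n).G_sub _ _ hn).2.1⟩
    choose! f hf using this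
    have key : ∀ {N x y}, x ∈ (s N).a → y ∈ (s N).a → (∃ n, (s n).G x y) → (s N).G x y := by
      rintro N x y hx hy ⟨n, hn⟩
      exact ((hle (le_max_left N n)).G x hx y hy).1 ((hle (le_max_right N n)).G' hn)
    have h1 : x ∈ (s (max n₀ (t.sup f))).a := (hle (le_max_left _ _)).a hn₀
    have h2 : ∀ y ∈ t, y ∈ (s (max n₀ (t.sup f))).a := fun y hy =>
      (hle ((Finset.le_sup hy).trans (le_max_right _ _))).a (hf y hy)
    exact ⟨_, h1, fun y hy => key h1 (h2 y hy) (H.2.1 y hy),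
      fun y hy z hz l => key (h2 y hy) (h2 z hz) (H.2.2 y hy z hz l)⟩
  let ρ : X → Finset X → W ×ₗ W := fun x t =>
    if H : ∃ n, (s n).Cl x t then (s H.choose).ρ x t else toLex (h, h)
  have hρ : ∀ n x t, (s n).Cl x t → ρ x t = (s n).ρ x t := by
    intro n x t H
    have H' : ∃ n, (s n).Cl x t := ⟨n, H⟩
    simp only [ρ, dif_pos H']
    rw [← (hle (le_max_left n H'.choose)).ρ x t H,
      (hle (le_max_right n H'.choose)).ρ x t H'.choose_spec]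
  have hc : ∀ n, ∀ y ∈ (s n).a, ∀ η ≤ (s n).h,
      (η ∈ {η | ∃ m, y ∈ (s m).a ∧ η ∈ (s m).c y} ↔ η ∈ (s n).c y) := by
    intro n y hy η hη
    refine ⟨fun ⟨m, h1, h2⟩ => ?_, fun h => ⟨n, hy, h⟩⟩
    exact ((hle (le_max_left n m)).c y hy η hη).1
      (((hle (le_max_right n m)).c y h1 η ((s m).c_le y h1 η h2)).2 h2)
  refine ⟨⟨⋃ n, (s n).a, h, fun x y => ∃ n, (s n).G x y,
    fun y => {η | ∃ m, y ∈ (s m).a ∧ η ∈ (s m).c y}, ρ, countable_iUnion fun n => (s n).a_ct,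
    ?_, ?_, ?_, ?_, ?_⟩, fun n => ⟨subset_iUnion (fun n => (s n).a) n, (hh _ ⟨n, rfl⟩).le,
      fun x hx y hy => ⟨fun ⟨m, hm⟩ => ?_, fun h => ⟨n, h⟩⟩, hc n, hρ n⟩⟩
  · intro x hx
    obtain ⟨n, hn⟩ := mem_iUnion.1 hx
    exact ((s n).lev_le x hn).trans (hh _ ⟨n, rfl⟩).le
  · rintro x y ⟨n, hn⟩
    have := (s n).G_sub _ _ hn
    exact ⟨mem_iUnion.2 ⟨n, this.1⟩, mem_iUnion.2 ⟨n, this.2.1⟩, this.2.2⟩
  · rintro y - η ⟨m, h1, h2⟩
    exact ((s m).c_le y h1 η h2).trans (hh _ ⟨m, rfl⟩).le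
  · intro x t t' H ht
    obtain ⟨n, hn⟩ := hcl x t' H
    rw [hρ n x t' hn, hρ n x t (hn.mono ht.subset)]
    exact (s n).dec x t t' hn ht
  · intro x t H η hη hc'
    obtain ⟨n, hn⟩ := hcl x t H
    rw [hρ n x t hn]
    exact (s n).prom x t hn η hη fun y hy =>
      (hc n y (hn.sub hy) η (hη.trans ((s n).lev_le x hn.1))).1 (hc' y hy)
  · exact ((hle (le_max_left n m)).G x hx y hy).1 ((hle (le_max_right n m)).G' hm)

/-- Restriction of a condition. -/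
def restrict (p : Cond) (r : Set X) : Cond where
  a := p.a ∩ r
  h := p.h
  G := fun x y => p.G x y ∧ x ∈ r ∧ y ∈ r
  c := p.c
  ρ := p.ρ
  a_ct := p.a_ct.mono inter_subset_left
  lev_le := fun x hx => p.lev_le x hx.1
  G_sub := fun _ _ h => ⟨⟨(p.G_sub _ _ h.1).1, h.2.1⟩, ⟨(p.G_sub _ _ h.1).2.1, h.2.2⟩,
    (p.G_sub _ _ h.1).2.2⟩
  c_le := fun y hy => p.c_le y hy.1
  dec := fun x s s' h => p.dec x s s'
    ⟨h.1.1, fun y hy => (h.2.1 y hy).1, fun y hy z hz l => (h.2.2 y hy z hz l).1⟩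
  prom := fun x s h => p.prom x s
    ⟨h.1.1, fun y hy => (h.2.1 y hy).1, fun y hy z hz l => (h.2.2 y hy z hz l).1⟩

theorem restrict_le {q p : Cond} {r : Set X} (h : q ≤ p) (hr : p.a ⊆ r) : q.restrict r ≤ p :=
  ⟨fun _ hx => ⟨h.a hx, hr hx⟩, h.h,
    fun x hx y hy => ⟨fun e => (h.G x hx y hy).1 e.1, fun e => ⟨h.G' e, hr hx, hr hy⟩⟩,
    h.c, h.ρ⟩

abbrev Ty : Type := W × Set (X × X) × Set (X × W) × Set (X × Finset X × (W ×ₗ W))

/-- The type of a condition over a set. -/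
def ty (r : Set X) (p : Cond) : Ty :=
  (p.h, {z | p.G z.1 z.2 ∧ z.1 ∈ r ∧ z.2 ∈ r}, {z | z.1 ∈ p.a ∧ z.1 ∈ r ∧ z.2 ∈ p.c z.1},
    {z | (p.restrict r).Cl z.1 z.2.1 ∧ p.ρ z.1 z.2.1 = z.2.2})

theorem ct_finsets {r : Set X} (hr : r.Countable) : {s : Finset X | ↑s ⊆ r}.Countable := by
  refine ((countable_ofPred_finite_subset hr).preimage_of_injOn
    (f := fun s : Finset X => (s : Set X)) (Finset.coe_injective.injOn)).mono ?_
  intro s hs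
  exact ⟨s.finite_toSet, hs⟩

theorem mk_ty {I : Type} (q : I → Cond) (r : Set X) (hr : r.Countable) :
    #(range fun i => ty r (q i)) ≤ 𝔠 := by
  have hW : #(univ : Set W) ≤ 𝔠 := by rw [mk_univ]; exact W.mk_le
  have hWW : #(univ : Set (W ×ₗ W)) ≤ 𝔠 := by
    rw [mk_univ]
    change #(W × W) ≤ 𝔠
    rw [mk_prod, lift_id]
    exact (mul_le_mul' W.mk_le W.mk_le).trans (by simp)
  have h₂ := mk_ct_subsets _ (mk_prod_le_c (ct_le hr) (ct_le hr))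
  have h₃ := mk_ct_subsets _ (mk_prod_le_c (ct_le hr) hW)
  have h₄ := mk_ct_subsets _ (mk_prod_le_c (ct_le hr) (mk_prod_le_c (ct_le (ct_finsets hr)) hWW))
  refine (mk_le_mk_of_subset ?_).trans (mk_prod_le_c hW (mk_prod_le_c h₂ (mk_prod_le_c h₃ h₄)))
  rintro _ ⟨i, rfl⟩
  refine ⟨trivial, ⟨fun z hz => hz.2, (hr.prod hr).mono fun z hz => hz.2⟩,
    ⟨fun z hz => ⟨hz.2.1, trivial⟩, (hr.prod (W.ct_Iic (q i).h)).mono fun z hz =>
      Set.mk_mem_prod hz.2.1 ((q i).c_le _ hz.1 _ hz.2.2)⟩,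
    ⟨fun z hz => ⟨hz.1.1.2, fun y hy => (hz.1.sub hy).2, trivial⟩, ?_⟩⟩
  refine ((hr.prod (ct_finsets hr)).image fun z => (z.1, z.2, (q i).ρ z.1 z.2)).mono ?_
  rintro ⟨x, s, v⟩ hz
  have e : (q i).ρ x s = v := hz.2
  exact ⟨(x, s), ⟨hz.1.1.2, fun y hy => (hz.1.sub hy).2⟩, by simp only [e]⟩

theorem le_restrict_of_ty {p q : Cond} {r : Set X} (hq : r ⊆ q.a) (e : ty r q = ty r p) :
    q ≤ p.restrict r ∧ q.h = p.h := by
  simp only [ty, Prod.mk.injEq] at e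
  obtain ⟨e₁, e₂, e₃, e₄⟩ := e
  refine ⟨⟨fun x hx => hq hx.2, e₁.ge, fun x hx y hy => ?_, fun y hy η _ => ?_, fun x s h => ?_⟩,
    e₁⟩
  · have := Set.ext_iff.1 e₂ (x, y)
    simp only [mem_ofPred_eq] at this
    exact ⟨fun h => this.1 ⟨h, hx.2, hy.2⟩, fun h => (this.2 h).1⟩
  · have := Set.ext_iff.1 e₃ (y, η)
    simp only [mem_ofPred_eq] at this
    exact ⟨fun h => (this.1 ⟨hq hy.2, hy.2, h⟩).2.2, fun h => (this.2 ⟨hy.1, hy.2, h⟩).2.2⟩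
  · have := Set.ext_iff.1 e₄ (x, s, p.ρ x s)
    simp only [mem_ofPred_eq] at this
    exact (this.2 ⟨h, trivial⟩).2

theorem amalg {p q r : Cond} (hp : p ≤ r) (hq : q ≤ r) (hi : p.a ∩ q.a ⊆ r.a) (hh : p.h = r.h) :
    ∃ u, u ≤ p ∧ u ≤ q ∧ (∀ x y, u.G x y → p.G x y ∨ q.G x y) ∧ (∀ y, y ∉ q.a → u.c y = p.c y) := by
  classical
  have gq : ∀ {x y}, x ∈ q.a → y ∈ q.a → p.G x y → q.G x y := fun {x y} hx hy e =>
    hq.G' ((hp.G x (hi ⟨(p.G_sub _ _ e).1, hx⟩) y (hi ⟨(p.G_sub _ _ e).2.1, hy⟩)).1 e)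
  have gp : ∀ {x y}, x ∈ p.a → y ∈ p.a → q.G x y → p.G x y := fun {x y} hx hy e =>
    hp.G' ((hq.G x (hi ⟨hx, (q.G_sub _ _ e).1⟩) y (hi ⟨hy, (q.G_sub _ _ e).2.1⟩)).1 e)
  have hcl : ∀ x s, Clq (p.a ∪ q.a) (fun x y => p.G x y ∨ q.G x y) x s → p.Cl x s ∨ q.Cl x s := by
    intro x s H
    by_cases h1 : x ∈ q.a ∧ ∀ y ∈ s, y ∈ q.a
    · exact Or.inr ⟨h1.1, fun y hy => (H.2.1 y hy).elim (gq h1.1 (h1.2 y hy)) id,
        fun y hy z hz l => (H.2.2 y hy z hz l).elim (gq (h1.2 y hy) (h1.2 z hz)) id⟩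
    have h2 : x ∈ p.a ∧ ∀ y ∈ s, y ∈ p.a := by
      by_cases hx : x ∈ q.a
      · have h3 : ¬ ∀ y ∈ s, y ∈ q.a := fun h => h1 ⟨hx, h⟩
        push Not at h3
        obtain ⟨z, hz, hz'⟩ := h3
        have e := (H.2.1 z hz).resolve_right fun e => hz' (q.G_sub _ _ e).2.1
        refine ⟨(p.G_sub _ _ e).1, fun y hy => ?_⟩
        rcases lt_trichotomy y z with l | rfl | l
        · exact (p.G_sub _ _ ((H.2.2 z hz y hy l).resolve_right
            fun e => hz' (q.G_sub _ _ e).1)).2.1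
        · exact (p.G_sub _ _ e).2.1
        · exact (p.G_sub _ _ ((H.2.2 y hy z hz l).resolve_right
            fun e => hz' (q.G_sub _ _ e).2.1)).1
      · exact ⟨H.1.resolve_right hx, fun y hy =>
          (p.G_sub _ _ ((H.2.1 y hy).resolve_right fun e => hx (q.G_sub _ _ e).1)).2.1⟩
    exact Or.inl ⟨h2.1, fun y hy => (H.2.1 y hy).elim id (gp h2.1 (h2.2 y hy)),
      fun y hy z hz l => (H.2.2 y hy z hz l).elim id (gp (h2.2 y hy) (h2.2 z hz))⟩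
  let ρ : X → Finset X → W ×ₗ W := fun x s => if q.Cl x s then q.ρ x s else p.ρ x s
  have hρq : ∀ x s, q.Cl x s → ρ x s = q.ρ x s := fun x s h => if_pos h
  have hρp : ∀ x s, p.Cl x s → ρ x s = p.ρ x s := by
    intro x s h
    by_cases h' : q.Cl x s
    · have hr : r.Cl x s := hp.cl' h (hi ⟨h.1, h'.1⟩) fun y hy => hi ⟨h.sub hy, h'.sub hy⟩
      rw [hρq x s h', hq.ρ x s hr, hp.ρ x s hr]
    · exact if_neg h'
  let c : X → Set W := fun y => if y ∈ q.a then q.c y else p.c y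
  have hcp : ∀ y ∈ p.a, ∀ η ≤ p.h, (η ∈ c y ↔ η ∈ p.c y) := by
    intro y hy η hη
    by_cases h' : y ∈ q.a
    · simp only [c, if_pos h']
      exact (hq.c y (hi ⟨hy, h'⟩) η (hh ▸ hη)).trans (hp.c y (hi ⟨hy, h'⟩) η (hh ▸ hη)).symm
    · simp only [c, if_neg h']
  have hcq : ∀ y ∈ q.a, c y = q.c y := fun y hy => if_pos hy
  have hpq : p.h ≤ q.h := hh.le.trans hq.h
  refine ⟨⟨p.a ∪ q.a, q.h, fun x y => p.G x y ∨ q.G x y, c, ρ, p.a_ct.union q.a_ct,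
    ?_, ?_, ?_, ?_, ?_⟩,
    ⟨subset_union_left, hpq, fun x hx y hy => ⟨fun e => e.elim id (gp hx hy), Or.inl⟩, hcp, hρp⟩,
    ⟨subset_union_right, le_rfl, fun x hx y hy => ⟨fun e => e.elim (gq hx hy) id, Or.inr⟩,
      fun y hy η _ => by simp only [hcq y hy], hρq⟩, fun x y h => h, fun y hy => if_neg hy⟩
  · rintro x (hx | hx)
    exacts [(p.lev_le x hx).trans hpq, q.lev_le x hx]
  · rintro x y (e | e)
    · exact ⟨Or.inl (p.G_sub _ _ e).1, Or.inl (p.G_sub _ _ e).2.1, (p.G_sub _ _ e).2.2⟩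
    · exact ⟨Or.inr (q.G_sub _ _ e).1, Or.inr (q.G_sub _ _ e).2.1, (q.G_sub _ _ e).2.2⟩
  · intro y hy η hη
    by_cases h' : y ∈ q.a
    · rw [hcq y h'] at hη; exact q.c_le y h' η hη
    · simp only [c, if_neg h'] at hη
      exact (p.c_le y (hy.resolve_right h') η hη).trans hpq
  · intro x s s' H hs
    rcases hcl x s' H with h | h
    · rw [hρp x s' h, hρp x s (h.mono hs.subset)]; exact p.dec x s s' h hs
    · rw [hρq x s' h, hρq x s (h.mono hs.subset)]; exact q.dec x s s' h hs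
  · intro x s H η hη hc
    rcases hcl x s H with h | h
    · rw [hρp x s h]
      exact p.prom x s h η hη fun y hy =>
        (hcp y (h.sub hy) η (hη.trans (p.lev_le x h.1))).1 (hc y hy)
    · rw [hρq x s h]
      exact q.prom x s h η hη fun y hy => hcq y (h.sub hy) ▸ hc y hy

theorem add_edge (u : Cond) {α β : X} (hαβ : α < β) (hα : α ∈ u.a) (hβ : β ∈ u.a)
    (hno : ¬ u.G β α) {h0 h1 : W} (h01 : h0 < h1) (h1β : h1 ≤ lev β)
    (hcα : ∀ η ∈ u.c α, η ≤ h0)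
    (hup : ∀ y, u.G y β → ¬ u.G y α)
    (hdown : ∀ y, u.G β y → (u.G y α ∨ u.G α y) → h1 ∈ u.c y) :
    ∃ v : Cond, v.G β α ∧ ∀ p, u ≤ p → (α ∉ p.a ∨ β ∉ p.a) → v ≤ p := by
  classical
  obtain ⟨rk, hrk⟩ := exists_rank (R := fun s' s : Finset X => u.Cl β s' ∧ s ⊂ s')
    (Subrelation.wf (fun {s' s} h => u.dec β s s' h.1 h.2)
      (InvImage.wf (u.ρ β) wellFounded_lt))
    (fun s => (ct_finsets u.a_ct).mono fun s' h => show (s' : Set X) ⊆ u.a from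
      fun y hy => h.1.sub hy)
  have hcl : ∀ x s, Clq u.a (fun x y => u.G x y ∨ (x = β ∧ y = α)) x s → ¬ u.Cl x s →
      x = β ∧ α ∈ s ∧ u.Cl β (s.erase α) ∧ ∀ y ∈ s.erase α, h1 ∈ u.c y := by
    intro x s H hn
    have hlt : ∀ y ∈ s, y < x := fun y hy => by
      rcases H.2.1 y hy with e | ⟨rfl, rfl⟩
      exacts [(u.G_sub _ _ e).2.2, hαβ]
    have hx : x = β := by
      by_contra hx
      have g1 : ∀ y ∈ s, u.G x y := fun y hy => (H.2.1 y hy).resolve_right fun e => hx e.1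
      refine hn ⟨H.1, g1, fun y hy z hz l => (H.2.2 y hy z hz l).resolve_right ?_⟩
      rintro ⟨rfl, rfl⟩
      exact hup x (g1 _ hy) (g1 _ hz)
    subst hx
    have g2 : ∀ y ∈ s, ∀ z ∈ s, z < y → u.G y z := fun y hy z hz l =>
      (H.2.2 y hy z hz l).resolve_right fun e => (hlt y hy).ne e.1
    have hαs : α ∈ s := by
      by_contra h
      exact hn ⟨H.1, fun y hy => (H.2.1 y hy).resolve_right fun e => h (e.2 ▸ hy), g2⟩
    have g1 : ∀ y ∈ s.erase α, u.G x y := fun y hy =>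
      (H.2.1 y (Finset.mem_of_mem_erase hy)).resolve_right fun e => Finset.ne_of_mem_erase hy e.2
    refine ⟨rfl, hαs, ⟨H.1, g1, fun y hy z hz =>
      g2 y (Finset.mem_of_mem_erase hy) z (Finset.mem_of_mem_erase hz)⟩, fun y hy => ?_⟩
    refine hdown y (g1 y hy) ?_
    rcases lt_trichotomy y α with l | l | l
    · exact Or.inr (g2 α hαs y (Finset.mem_of_mem_erase hy) l)
    · exact absurd l (Finset.ne_of_mem_erase hy)
    · exact Or.inl (g2 y (Finset.mem_of_mem_erase hy) α hαs l)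
  refine ⟨⟨u.a, u.h, fun x y => u.G x y ∨ (x = β ∧ y = α), u.c,
    fun x s => if u.Cl x s then u.ρ x s else toLex (h0, rk (s.erase α)), u.a_ct, u.lev_le,
    ?_, u.c_le, ?_, ?_⟩, Or.inr ⟨rfl, rfl⟩, fun p hp hpa => ⟨hp.a, hp.h, fun x hx y hy => ?_, hp.c,
      fun x s h => (if_pos (hp.cl h)).trans (hp.ρ x s h)⟩⟩
  · rintro x y (e | ⟨rfl, rfl⟩)
    exacts [u.G_sub _ _ e, ⟨hβ, hα, hαβ⟩]
  · intro x s s' H hs
    by_cases h' : u.Cl x s'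
    · rw [if_pos h', if_pos (h'.mono hs.subset)]; exact u.dec x s s' h' hs
    obtain ⟨rfl, k1, k2, k3⟩ := hcl x s' H h'
    rw [if_neg h']
    by_cases h : u.Cl x s
    · rw [if_pos h]
      have hαs : α ∉ s := fun e => hno (h.2.1 α e)
      have := u.prom x s h h1 h1β fun y hy =>
        k3 y (Finset.mem_erase.2 ⟨fun e => hαs (e ▸ hy), hs.subset hy⟩)
      exact Prod.Lex.lt_iff.2 (Or.inl (h01.trans_le this))
    · rw [if_neg h]
      obtain ⟨-, l1, -, -⟩ := hcl x s (H.mono hs.subset) h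
      refine Prod.Lex.lt_iff.2 (Or.inr ⟨rfl, hrk _ _ ⟨k2, ?_⟩⟩)
      rw [Finset.ssubset_iff_subset_ne]
      refine ⟨Finset.erase_subset_erase _ hs.subset, fun e => hs.ne ?_⟩
      rw [← Finset.insert_erase l1, ← Finset.insert_erase k1, e]
  · intro x s H η hη hc
    by_cases h : u.Cl x s
    · rw [if_pos h]; exact u.prom x s h η hη hc
    · rw [if_neg h]
      exact hcα η (hc α (hcl x s H h).2.1)
  · refine Iff.trans ⟨fun e => e.resolve_right ?_, Or.inl⟩ (hp.G x hx y hy)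
    rintro ⟨rfl, rfl⟩
    exact hpa.elim (fun h => h hy) (fun h => h hx)

theorem cc {I : Type} (hI : 𝔠 < #I) (q : I → Cond) : ∃ i j, i ≠ j ∧ ∃ u, u ≤ q i ∧ u ≤ q j := by
  obtain ⟨r, t, H⟩ := root_lemma (fun i => (q i).a) (fun i => (q i).a_ct) id
    (by rwa [range_id, mk_univ]) (fun r i => ty r (q i)) (mk_ty q)
  obtain ⟨i, -, -, h₂, h₃⟩ := H ∅ countable_empty ∅ countable_empty
  obtain ⟨j, k₀, k₁, k₂, k₃⟩ := H (q i).a (q i).a_ct {i} (countable_singleton i)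
  obtain ⟨l₁, l₂⟩ := le_restrict_of_ty k₂ (k₃.trans h₃.symm)
  obtain ⟨l₃, -⟩ := le_restrict_of_ty (p := q i) h₂ rfl
  obtain ⟨u, h₄, h₅, -⟩ := amalg l₁ l₃ (fun x hx => ⟨hx.2, k₁ hx⟩) l₂
  exact ⟨j, i, k₀, u, h₄, h₅⟩

theorem cc_label (q : X → Cond) (γ : X → X) (h : #(range γ) < kap) :
    ∃ i j, i ≠ j ∧ γ i = γ j ∧ ∃ u, u ≤ q i ∧ u ≤ q j := by
  obtain ⟨y, hy⟩ := exists_big_fiber γ h
  obtain ⟨i, j, hij, H⟩ := cc hy (fun i => q i.1)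
  exact ⟨i.1, j.1, fun e => hij (Subtype.ext e), i.2.trans j.2.symm, H⟩

/-- The main combinatorial lemma: a set forced to be large contains an edge. -/
theorem exists_edge (Fo : Cond → X → X → Prop)
    (mono : ∀ p q β γ, q ≤ p → Fo p β γ → Fo q β γ) (p : Cond)
    (tot : ∀ q ≤ p, ∀ β, ∃ q' ≤ q, ∃ γ, Fo q' β γ)
    (inj : ∀ q ≤ p, ∀ β β' γ, Fo q β γ → Fo q β' γ → β = β') :
    ∃ v ≤ p, ∃ α β α' β', Fo v α α' ∧ Fo v β β' ∧ v.G β' α' := by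
  have big : ∀ p' ≤ p, ∃ q : X → Cond, ∃ γ : X → X, (∀ β, q β ≤ p' ∧ Fo (q β) β (γ β) ∧
      γ β ∈ (q β).a) ∧ ¬ #(range γ) < kap := by
    intro p' hp'
    have : ∀ β, ∃ q ≤ p', ∃ γ, Fo q β γ ∧ γ ∈ q.a := fun β => by
      obtain ⟨q, hq, γ, h⟩ := tot p' hp' β
      obtain ⟨q', hq', h'⟩ := q.add_point γ
      exact ⟨q', hq'.trans hq, γ, mono _ _ _ _ hq' h, h'⟩
    choose q hq γ hγ using this
    refine ⟨q, γ, fun β => ⟨hq β, hγ β⟩, fun h => ?_⟩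
    obtain ⟨i, j, hij, e, u, h₁, h₂⟩ := cc_label q γ h
    exact hij (inj u (h₁.trans ((hq i).trans hp')) i j (γ i) (mono _ _ _ _ h₁ (hγ i).1)
      (e ▸ mono _ _ _ _ h₂ (hγ j).1))
  obtain ⟨q, γ, hq, hbig⟩ := big p le_rfl
  obtain ⟨r, t, H⟩ := root_lemma (fun i => (q i).a) (fun i => (q i).a_ct) γ
    (c_lt_kap.trans_le (not_lt.1 hbig)) (fun r i => ty r (q i)) (mk_ty q)
  obtain ⟨i₀, -, h₁, h₂, h₃⟩ := H p.a p.a_ct ∅ countable_empty
  have hq0 : (q i₀).restrict r ≤ p := restrict_le (hq i₀).1 fun x hx => h₁ ⟨(hq i₀).1.a hx, hx⟩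
  obtain ⟨h1, hh1⟩ := W.exists_gt ((q i₀).restrict r).h
  obtain ⟨q1, hq1, e1, e2⟩ := ((q i₀).restrict r).bump h1 hh1
  obtain ⟨q', γ', hq', hbig'⟩ := big q1 (hq1.trans hq0)
  obtain ⟨β, hβ⟩ : ∃ β, ¬ lev (γ' β) ≤ h1 := by
    by_contra h
    push Not at h
    exact hbig' ((mk_le_mk_of_subset (by rintro _ ⟨b, rfl⟩; exact h b)).trans_lt (mk_lev_le h1))
  have hβ' : h1 < lev (γ' β) := not_le.1 hβ
  obtain ⟨b₁, b₂, b₃⟩ := hq' β
  obtain ⟨α, k₀, k₁, k₂, k₃⟩ := H (q' β).a (q' β).a_ct (q' β).a (q' β).a_ct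
  obtain ⟨a₁, a₂, a₃⟩ := hq α
  obtain ⟨l₁, l₂⟩ := le_restrict_of_ty k₂ (k₃.trans h₃.symm)
  have hlev : ∀ x ∈ (q α).a, lev x < h1 := fun x hx =>
    ((q α).lev_le x hx).trans_lt (l₂ ▸ hh1)
  have hnβ : γ' β ∉ (q α).a := fun h => (hlev _ h).not_gt hβ'
  obtain ⟨u, u₁, u₂, u₃, u₄⟩ := amalg l₁ (b₁.trans hq1) (fun x hx => ⟨h₂ (k₁ hx), k₁ hx⟩) l₂
  have gβ : ∀ y, u.G (γ' β) y → y ∈ (q' β).a := fun y e =>
    ((q' β).G_sub _ _ ((u₃ _ _ e).resolve_left fun e => hnβ ((q α).G_sub _ _ e).1)).2.1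
  have gα : ∀ y, u.G y (γ α) → y ∈ (q α).a := fun y e =>
    ((q α).G_sub _ _ ((u₃ _ _ e).resolve_right fun e => k₀ ((q' β).G_sub _ _ e).2.1)).1
  have gα' : ∀ y, u.G (γ α) y → y ∈ (q α).a := fun y e =>
    ((q α).G_sub _ _ ((u₃ _ _ e).resolve_right fun e => k₀ ((q' β).G_sub _ _ e).1)).2.1
  obtain ⟨v, hv, hv'⟩ := u.add_edge (α := γ α) (β := γ' β) (h0 := (q α).h) (h1 := h1)
    (by
      by_contra h
      exact ((hlev _ a₃).trans hβ').not_ge (lev_mono (not_lt.1 h)))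
    (u₁.a a₃) (u₂.a b₃) (fun e => hnβ (gα _ e)) (l₂ ▸ hh1) hβ'.le
    (fun η hη => (q α).c_le _ a₃ η (u₄ _ k₀ ▸ hη))
    (fun y e e' => ((hlev _ (gα y e')).trans hβ').not_ge (lev_mono (u.G_sub _ _ e).2.2.le))
    (fun y e e' => by
      have y₁ := gβ y e
      have y₂ : y ∈ (q α).a := e'.elim (gα y) (gα' y)
      have y₃ : y ∈ q1.a := hq1.a ⟨h₂ (k₁ ⟨y₂, y₁⟩), k₁ ⟨y₂, y₁⟩⟩
      exact ((u₂.trans b₁).c y y₃ h1 e1.ge).2 (e2 y))
  have v₁ := hv' _ u₁ (Or.inr hnβ)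
  have v₂ := hv' _ u₂ (Or.inl k₀)
  exact ⟨v, v₁.trans a₁, α, β, γ α, γ' β, mono _ _ _ _ v₁ a₂, mono _ _ _ _ v₂ b₂, hv⟩

end Cond

end Pool.Agent.MP_e34318_lc
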