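import Pool.Agent.MP_c6cf52_lc.Tools
import Pool.Agent.MP_e34318_lc.Poset
import Pool.Agent.MP_e34318_lc.Defs

namespace Pool.Agent.MP_e34318_lc

open Pool.Agent.MP_c6cf52_lc Name Gen Cardinal Set

theorem wfX : WellFounded (fun a b : X => a < b) := wellFounded_lt

theorem triX (a b : X) : a < b ∨ a = b ∨ b < a := lt_trichotomy a b

/-- Names of ordinals. -/
noncomputable def o (x : X) : Name Cond := ordN wfX x

noncomputable def kN : Name Cond := setN wfX Set.univ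

noncomputable def tN : Name Cond := setN wfX (Iic om)

noncomputable def nN (k : ℕ) : Name Cond := ordN natWf ⟨k⟩

open Classical in
noncomputable def col (b : Prop) : Name Cond := nN (if b then 1 else 0)

variable {g : Gen Cond}

theorem E_o {a : X} (h : o a ∈ g.N) {x : g.M} :
    g.E x (g.v (o a)) ↔ ∃ y, y < a ∧ o y ∈ g.N ∧ g.v (o y) = x := E_ordN wfX h

theorem E_k (h : kN ∈ g.N) {x : g.M} :
    g.E x (g.v kN) ↔ ∃ y, o y ∈ g.N ∧ g.v (o y) = x := by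
  unfold kN at h ⊢
  rw [E_setN wfX h]
  simp only [mem_univ, true_and]
  rfl

theorem o_lt {a b : X} (ha : o a ∈ g.N) (hb : o b ∈ g.N) :
    g.E (g.v (o a)) (g.v (o b)) ↔ a < b := ord_lt_iff wfX triX ha hb

theorem o_inj {a b : X} (ha : o a ∈ g.N) (hb : o b ∈ g.N) (h : g.v (o a) = g.v (o b)) : a = b :=
  ord_inj wfX triX ha hb h

theorem o_mem_om (hb : o om ∈ g.N) {a : X} (h : a < om) : o a ∈ g.N :=
  ordN_mem wfX hb om_ct h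

theorem isOrd_o {a : X} (h : o a ∈ g.N) : IsOrd g.E (g.v (o a)) := by
  have e : o a = setN wfX {y | y < a} := ordN_eq wfX a
  rw [e] at h ⊢
  exact isOrd_setN wfX triX h fun x y h₁ h₂ => lt_trans h₁ h₂

theorem isOrd_k (h : kN ∈ g.N) : IsOrd g.E (g.v kN) :=
  isOrd_setN wfX triX h fun _ _ _ _ => trivial

theorem nN_mem (k : ℕ) : nN k ∈ g.N := nat_mem _

theorem col_mem (b : Prop) : col b ∈ g.N := nN_mem _

theorem nN_inj {j k : ℕ} (h : g.v (nN j) = g.v (nN k)) : j = k :=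
  congrArg ULift.down (ord_inj natWf natTri (nN_mem j) (nN_mem k) h)

theorem E_nN {k : ℕ} {x : g.M} : g.E x (g.v (nN k)) ↔ ∃ j < k, g.v (nN j) = x := by
  unfold nN
  rw [E_ordN natWf (nat_mem _)]
  exact ⟨fun ⟨y, h₁, _, h₂⟩ => ⟨y.down, h₁, h₂⟩, fun ⟨j, h₁, h₂⟩ => ⟨⟨j⟩, h₁, nat_mem _, h₂⟩⟩

theorem col_one {b : Prop} (h : g.v (nN 1) = g.v (col b)) : b := by
  by_contra hb
  have := nN_inj h
  simp [hb] at this

theorem col_zero {b : Prop} (h : g.v (nN 0) = g.v (col b)) : ¬ b := by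
  intro hb
  have := nN_inj h
  simp [hb] at this

/-! ### Omega and its successor -/

theorem isOmega_om (hw : o om ∈ g.N) : IsOmega g.E (g.v (o om)) := by
  refine ⟨isOrd_o hw, ⟨?_, fun x hx => ?_⟩, fun x hx => ?_⟩
  · obtain ⟨x, hx⟩ := om_inf.nonempty
    exact ⟨_, (o_lt (o_mem_om hw hx) hw).2 hx⟩
  · obtain ⟨y, hy, hyN, rfl⟩ := (E_o hw).1 hx
    obtain ⟨z, h₁, h₂⟩ := om_between hy
    exact ⟨_, (o_lt (o_mem_om hw h₂) hw).2 h₂, (o_lt hyN (o_mem_om hw h₂)).2 h₁⟩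
  · obtain ⟨y, hy, hyN, rfl⟩ := (E_o hw).1 hx
    rintro ⟨⟨a, ha⟩, H⟩
    obtain ⟨z, hz, -, -⟩ := (E_o hyN).1 ha
    obtain ⟨m, hm, hmax⟩ := Set.exists_max_image (Iio y) id (fin_of_lt hy) ⟨z, hz⟩
    have hmN := o_mem_om hw (lt_trans hm hy)
    obtain ⟨b, hb, hb'⟩ := H _ ((o_lt hmN hyN).2 hm)
    obtain ⟨z', hz', hzN, rfl⟩ := (E_o hyN).1 hb
    exact ((o_lt hmN hzN).1 hb').not_ge (hmax z' hz')

theorem E_t (ht : tN ∈ g.N) (hw : o om ∈ g.N) (x : g.M) :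
    g.E x (g.v tN) ↔ g.E x (g.v (o om)) ∨ x = g.v (o om) := by
  unfold tN at ht ⊢
  rw [E_setN wfX ht, E_o hw]
  constructor
  · rintro ⟨y, hy, h₁, rfl⟩
    rcases (mem_Iic.1 hy).lt_or_eq with h | rfl
    exacts [Or.inl ⟨y, h, h₁, rfl⟩, Or.inr rfl]
  · rintro (⟨y, hy, h₁, rfl⟩ | rfl)
    exacts [⟨y, mem_Iic.2 hy.le, h₁, rfl⟩, ⟨om, mem_Iic.2 le_rfl, hw, rfl⟩]

/-! ### Cofinality -/

theorem bounded (hk : kN ∈ g.N) (hw : o om ∈ g.N) (f : g.M)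
    (hf : IsFun g.E f (g.v (o om)) (g.v kN)) :
    ∃ b, g.E b (g.v kN) ∧ ∀ n y, App g.E f n y → g.E y b := by
  obtain ⟨σ, hσ, rfl⟩ := exists_v f
  have hU : UDef.{1} (fun _ E w => IsFun E (w 0) (w 1) (w 2) →
      ∃ b, E b (w 2) ∧ ∀ n y, App E (w 0) n y → E y b) := by
    repeat' first
      | exact UDef.mem _ _ | exact UDef.app _ _ _ | exact UDef.isFun _ _ _ | apply UDef.and
      | apply UDef.imp | apply UDef.all | apply UDef.ex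
  refine dens hU (l3 hσ hw hk) (fun p _ => ?_) hf
  have := om_ct.to_subtype
  have : Nonempty X := ⟨om⟩
  obtain ⟨q, hq, h, H⟩ := decide_app Cond.closed (J := Iio om) (K := X) σ
    (fun j _ => o j.1) (fun _ k => o k) p
  obtain ⟨b, hb⟩ := X.bound (countable_range h)
  refine ⟨q, hq, insert (o b) (range fun j => o (h j)), (countable_range _).insert _,
    fun g' hq' hC hl (hf : IsFun g'.E (g'.v σ) (g'.v (o om)) (g'.v kN)) => ?_⟩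
  have hbN : o b ∈ g'.N := hC (mem_insert _ _)
  have hk' : kN ∈ g'.N := hl _ (by simp)
  have hw' : o om ∈ g'.N := hl _ (by simp)
  refine ⟨g'.v (o b), (E_k hk').2 ⟨b, hbN, rfl⟩, fun n y (hny : App g'.E (g'.v σ) n y) => ?_⟩
  obtain ⟨z, hz, hzN, rfl⟩ := (E_o hw').1 (fun_mem hf hny).1
  obtain ⟨x, hxN, rfl⟩ := (E_k hk').1 (fun_mem hf hny).2
  have hh : o (h ⟨z, hz⟩) ∈ g'.N := hC (Or.inr ⟨_, rfl⟩)
  have := H g' hq' (hl _ (by simp)) ⟨z, hz⟩ x hzN hxN hny hzN hh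
  rw [fun_uniq hf hny this]
  exact (o_lt hh hbN).2 (hb _ ⟨_, rfl⟩)

/-! ### Injections defined on the large cardinal -/

/-- `q` forces that `σ` maps `β` to `γ`. -/
def Fo (σ : Name Cond) (q : Cond) (β γ : X) : Prop :=
  ∀ g' : Gen Cond, q ∈ g'.G → σ ∈ g'.N → o β ∈ g'.N → o γ ∈ g'.N →
    App g'.E (g'.v σ) (g'.v (o β)) (g'.v (o γ))

theorem Fo.mono (σ : Name Cond) (p q : Cond) (β γ : X) (h : q ≤ p) (H : Fo σ p β γ) :
    Fo σ q β γ := fun g' hq => H g' (g'.up hq h)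

theorem fo_tot {σ τ : Name Cond} {p : Cond} {l : List (Name Cond)} (hσ : σ ∈ l) (hk : kN ∈ l)
    (H : ∀ g' : Gen Cond, p ∈ g'.G → (∀ x ∈ l, x ∈ g'.N) →
      IsInj g'.E (g'.v σ) (g'.v kN) (g'.v τ) ∧ ∀ x, g'.E x (g'.v τ) → g'.E x (g'.v kN))
    (q : Cond) (hq : q ≤ p) (β : X) : ∃ q' ≤ q, ∃ γ, Fo σ q' β γ ∧
      ∃ g' : Gen Cond, (∀ x ∈ l, x ∈ g'.N) ∧ o γ ∈ g'.N ∧ g'.E (g'.v (o γ)) (g'.v τ) := by
  obtain ⟨g', hq', hC⟩ := exists_gen q (insert (o β) {x | x ∈ l})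
    ((List.finite_toSet l).countable.insert _)
  have hl : ∀ x ∈ l, x ∈ g'.N := fun x hx => hC (Or.inr hx)
  have h₄ : o β ∈ g'.N := hC (mem_insert _ _)
  obtain ⟨hf, hsub⟩ := H g' (g'.up hq' hq) hl
  obtain ⟨b, hb, hab⟩ := fun_ex hf.1 ((E_k (hl _ hk)).2 ⟨β, h₄, rfl⟩)
  obtain ⟨z, hzN, rfl⟩ := (E_k (hl _ hk)).1 (hsub b hb)
  obtain ⟨r, hr, H'⟩ := transfer_app (hl _ hσ) h₄ hzN hab
  obtain ⟨s, -, h₅, h₆⟩ := g'.dir hr hq'
  exact ⟨s, h₆, z, fun g'' hs => H' g'' (g''.up hs h₅), g', hl, hzN, hb⟩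

theorem fo_inj {σ τ : Name Cond} {p : Cond} {l : List (Name Cond)} (hσ : σ ∈ l)
    (H : ∀ g' : Gen Cond, p ∈ g'.G → (∀ x ∈ l, x ∈ g'.N) →
      IsInj g'.E (g'.v σ) (g'.v kN) (g'.v τ))
    (q : Cond) (hq : q ≤ p) (β β' γ : X) (h₁ : Fo σ q β γ) (h₂ : Fo σ q β' γ) : β = β' := by
  obtain ⟨g', hq', hC⟩ := exists_gen q ({o β, o β', o γ} ∪ {x | x ∈ l})
    ((Set.toFinite _).countable.union (List.finite_toSet l).countable)
  have hl : ∀ x ∈ l, x ∈ g'.N := fun x hx => hC (Or.inr hx)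
  have a₁ : o β ∈ g'.N := hC (Or.inl (by simp))
  have a₂ : o β' ∈ g'.N := hC (Or.inl (by simp))
  have a₃ : o γ ∈ g'.N := hC (Or.inl (by simp))
  exact o_inj a₁ a₂ ((H g' (g'.up hq' hq) hl).2 _ _ _ (h₁ g' hq' (hl _ hσ) a₁ a₃)
    (h₂ g' hq' (hl _ hσ) a₂ a₃))

theorem isCard_k (hk : kN ∈ g.N) : IsCard g.E (g.v kN) := by
  refine ⟨isOrd_k hk, fun a ha ⟨f, hf⟩ => ?_⟩
  obtain ⟨y, hyN, rfl⟩ := (E_k hk).1 ha
  obtain ⟨σ, hσ, rfl⟩ := exists_v f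
  obtain ⟨p, -, H⟩ := transfer (UDef.isInj 0 1 2) (l3 hσ hk hyN) hf
  have H' : ∀ g' : Gen Cond, p ∈ g'.G → (∀ x ∈ [σ, kN, o y], x ∈ g'.N) →
      IsInj g'.E (g'.v σ) (g'.v kN) (g'.v (o y)) := H
  have key := fo_tot (σ := σ) (τ := o y) (p := p) (l := [σ, kN, o y]) (by simp) (by simp)
    (fun g' hp hl => ⟨H' g' hp hl, fun x hx => by
      obtain ⟨z, -, hz, rfl⟩ := (E_o (hl _ (by simp))).1 hx
      exact (E_k (hl _ (by simp))).2 ⟨z, hz, rfl⟩⟩) p le_rfl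
  choose q hq γ hγ hγ' using key
  have hsmall : #(range γ) < kap := by
    refine lt_of_le_of_lt (mk_le_mk_of_subset ?_) (X.mk_Iio y)
    rintro _ ⟨β, rfl⟩
    obtain ⟨g', hl, h₁, h₂⟩ := hγ' β
    exact (o_lt h₁ (hl _ (by simp))).1 h₂
  obtain ⟨i, j, hij, e, u, h₁, h₂⟩ := Cond.cc_label q γ hsmall
  exact hij (fo_inj (σ := σ) (l := [σ, kN, o y]) (by simp) H' u (h₁.trans (hq i)) i j (γ i)
    (Fo.mono _ _ _ _ _ h₁ (hγ i)) (e ▸ Fo.mono _ _ _ _ _ h₂ (hγ j)))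

/-! ### The colouring -/

noncomputable def DN : Name Cond :=
  fam (fun z : {z : X × X // z.2 < z.1} => upair (o z.1.1) (o z.1.2))

noncomputable def cN : Name Cond :=
  relN (fun z : {z : X × X × Cond // z.2.1 < z.1 ∧ z.1 ∈ z.2.2.a ∧ z.2.1 ∈ z.2.2.a} =>
    upair (o z.1.1) (o z.1.2.1)) (fun z => col (z.1.2.2.G z.1.1 z.1.2.1)) (fun z => z.1.2.2)

theorem isUPair_upair {σ τ : Name Cond} (hσ : σ ∈ g.N) (hτ : τ ∈ g.N) :
    IsUPair g.E (g.v (upair σ τ)) (g.v σ) (g.v τ) := fun _ => E_upair hσ hτ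

theorem IsUPair.uniq {p q a b : g.M} (h : IsUPair g.E p a b) (h' : IsUPair g.E q a b) : p = q :=
  ext fun x => (h x).trans (h' x).symm

theorem IsUPair.symm {p a b : g.M} (h : IsUPair g.E p a b) : IsUPair g.E p b a :=
  fun x => (h x).trans or_comm

theorem upair_inj {x y x' y' : X} (h : y < x) (h' : y' < x') (hx : o x ∈ g.N) (hy : o y ∈ g.N)
    (hx' : o x' ∈ g.N) (hy' : o y' ∈ g.N)
    (e : g.v (upair (o x) (o y)) = g.v (upair (o x') (o y'))) : x = x' ∧ y = y' := by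
  have a₁ := (E_upair hx' hy').1 (e ▸ (E_upair hx hy).2 (Or.inl rfl))
  have a₂ := (E_upair hx' hy').1 (e ▸ (E_upair hx hy).2 (Or.inr rfl))
  rcases a₁ with a₁ | a₁ <;> rcases a₂ with a₂ | a₂
  · exact absurd ((o_inj hy hx' a₂).trans (o_inj hx hx' a₁).symm) h.ne
  · exact ⟨o_inj hx hx' a₁, o_inj hy hy' a₂⟩
  · obtain rfl := o_inj hx hy' a₁
    obtain rfl := o_inj hy hx' a₂
    exact absurd h h'.not_gt
  · exact absurd ((o_inj hy hy' a₂).trans (o_inj hx hy' a₁).symm) h.ne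

theorem E_D (hD : DN ∈ g.N) (hk : kN ∈ g.N) (p : g.M) : g.E p (g.v DN) ↔
    ∃ a b, g.E a (g.v kN) ∧ g.E b (g.v kN) ∧ a ≠ b ∧ IsUPair g.E p a b := by
  unfold DN at hD ⊢
  rw [E_fam hD]
  constructor
  · rintro ⟨⟨⟨x, y⟩, h⟩, h₁, rfl⟩
    obtain ⟨hx, hy⟩ := upair_mem_iff.1 h₁
    exact ⟨_, _, (E_k hk).2 ⟨x, hx, rfl⟩, (E_k hk).2 ⟨y, hy, rfl⟩,
      fun e => h.ne' (o_inj hx hy e), isUPair_upair hx hy⟩
  · rintro ⟨a, b, ha, hb, hne, e⟩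
    obtain ⟨x, hx, rfl⟩ := (E_k hk).1 ha
    obtain ⟨y, hy, rfl⟩ := (E_k hk).1 hb
    rcases triX x y with h | rfl | h
    · exact ⟨⟨(y, x), h⟩, upair_mem hy hx, (isUPair_upair hy hx).uniq e.symm⟩
    · exact absurd rfl hne
    · exact ⟨⟨(x, y), h⟩, upair_mem hx hy, (isUPair_upair hx hy).uniq e⟩

theorem app_cN (hc : cN ∈ g.N) {s t : g.M} : App g.E (g.v cN) s t ↔
    ∃ x y, ∃ p ∈ g.G, y < x ∧ x ∈ p.a ∧ y ∈ p.a ∧ o x ∈ g.N ∧ o y ∈ g.N ∧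
      s = g.v (upair (o x) (o y)) ∧ t = g.v (col (p.G x y)) := by
  unfold cN at hc ⊢
  rw [app_relN hc]
  constructor
  · rintro ⟨⟨⟨x, y, p⟩, h₀, h₁, h₂⟩, hp, h, -, rfl, rfl⟩
    have h := upair_mem_iff.1 h
    exact ⟨x, y, p, hp, h₀, h₁, h₂, h.1, h.2, rfl, rfl⟩
  · rintro ⟨x, y, p, hp, h₀, h₁, h₂, h₃, h₄, rfl, rfl⟩
    exact ⟨⟨⟨x, y, p⟩, h₀, h₁, h₂⟩, hp, upair_mem h₃ h₄, col_mem _, rfl, rfl⟩

theorem app_cN' (hc : cN ∈ g.N) {x y : X} (hxy : y < x) (hx : o x ∈ g.N) (hy : o y ∈ g.N)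
    {t : g.M} (h : App g.E (g.v cN) (g.v (upair (o x) (o y))) t) :
    ∃ p ∈ g.G, x ∈ p.a ∧ y ∈ p.a ∧ t = g.v (col (p.G x y)) := by
  obtain ⟨x', y', p, hp, h₀, h₁, h₂, h₃, h₄, e, rfl⟩ := (app_cN hc).1 h
  obtain ⟨rfl, rfl⟩ := upair_inj hxy h₀ hx hy h₃ h₄ e
  exact ⟨p, hp, h₁, h₂, rfl⟩

theorem udef_upair (i j k : ℕ) : UDef.{1} (fun _ E w => IsUPair E (w i) (w j) (w k)) := by
  unfold IsUPair
  repeat' first
    | exact UDef.mem _ _ | exact UDef.eq _ _ | apply UDef.or | apply UDef.iff | apply UDef.all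

theorem isFun_cN (hc : cN ∈ g.N) (hD : DN ∈ g.N) :
    IsFun g.E (g.v cN) (g.v DN) (g.v (nN 2)) := by
  constructor
  · intro p hp
    obtain ⟨⟨⟨x, y, q⟩, h₀, h₁, h₂⟩, -, h, -, rfl⟩ := (E_relN hc).1 hp
    refine ⟨_, _, (E_fam hD).2 ⟨⟨(x, y), h₀⟩, h, rfl⟩, E_nN.2 ⟨_, ?_, rfl⟩, isPair_pr _ _⟩
    split_ifs <;> simp
  · intro a ha
    obtain ⟨⟨⟨x, y⟩, hxy⟩, h, rfl⟩ := (E_fam hD).1 ha
    obtain ⟨hx, hy⟩ := upair_mem_iff.1 h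
    have : ∃ b, App g.E (g.v cN) (g.v (upair (o x) (o y))) b := by
      refine dens (Ψ := fun _ E w => ∃ b, App E (w 0) (w 1) b)
        (UDef.ex (UDef.app _ _ _)) (l2 hc h) fun p _ => ?_
      obtain ⟨q, hq, h₁, h₂⟩ := p.add_two x y
      refine ⟨q, hq, ∅, countable_empty, fun g' hq' _ hl => ⟨g'.v (col (q.G x y)), ?_⟩⟩
      have h' : upair (o x) (o y) ∈ g'.N := hl _ (by simp)
      exact (app_cN (hl _ (by simp))).2 ⟨x, y, q, hq', hxy, h₁, h₂, (upair_mem_iff.1 h').1,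
        (upair_mem_iff.1 h').2, rfl, rfl⟩
    obtain ⟨b, hb⟩ := this
    refine ⟨b, hb, fun b' hb' => ?_⟩
    obtain ⟨p, hp, h₁, h₂, rfl⟩ := app_cN' hc hxy hx hy hb
    obtain ⟨q, hq, h₃, h₄, rfl⟩ := app_cN' hc hxy hx hy hb'
    obtain ⟨r, -, h₅, h₆⟩ := g.dir hp hq
    rw [propext ((h₆.G x h₃ y h₄).symm.trans (h₅.G x h₁ y h₂))]

theorem no_large (hc : cN ∈ g.N) (hk : kN ∈ g.N) (A f : g.M)
    (hA : ∀ x, g.E x A → g.E x (g.v kN)) (hf : IsInj g.E f (g.v kN) A) :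
    ¬ Homog g.E (g.v cN) A (g.v (nN 0)) := by
  intro hH
  obtain ⟨σ, hσ, rfl⟩ := exists_v f
  obtain ⟨τ, hτ, rfl⟩ := exists_v A
  have hU : UDef.{1} (fun _ E w => (IsInj E (w 0) (w 1) (w 2) ∧ ∀ x, E x (w 2) → E x (w 1)) ∧
      Homog E (w 3) (w 2) (w 4)) := by
    unfold Homog
    repeat' first
      | exact UDef.mem _ _ | exact UDef.app _ _ _ | exact UDef.isInj _ _ _ | exact UDef.ne _ _
      | exact udef_upair _ _ _ | apply UDef.and | apply UDef.imp | apply UDef.all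
  obtain ⟨p, -, H⟩ := transfer hU (l := [σ, kN, τ, cN, nN 0])
    (lcons hσ (l4 hk hτ hc (nN_mem 0))) ⟨⟨hf, hA⟩, hH⟩
  have H' : ∀ g' : Gen Cond, p ∈ g'.G → (∀ x ∈ [σ, kN, τ, cN, nN 0], x ∈ g'.N) →
      (IsInj g'.E (g'.v σ) (g'.v kN) (g'.v τ) ∧ ∀ x, g'.E x (g'.v τ) → g'.E x (g'.v kN)) ∧
        Homog g'.E (g'.v cN) (g'.v τ) (g'.v (nN 0)) := H
  obtain ⟨v, hv, α, β, α', β', h₁, h₂, e⟩ := Cond.exists_edge (Fo σ) (Fo.mono σ) p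
    (fun q hq β => by
      obtain ⟨q', hq', γ, h, -⟩ := fo_tot (σ := σ) (τ := τ) (l := [σ, kN, τ, cN, nN 0])
        (by simp) (by simp) (fun g' hp hl => (H' g' hp hl).1) q hq β
      exact ⟨q', hq', γ, h⟩)
    (fo_inj (σ := σ) (τ := τ) (l := [σ, kN, τ, cN, nN 0]) (by simp)
      fun g' hp hl => (H' g' hp hl).1.1)
  obtain ⟨g', hv', hC⟩ := exists_gen v {σ, kN, τ, cN, nN 0, o α, o β, o α', o β'}
    (Set.toFinite _).countable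
  obtain ⟨⟨k₁, -⟩, k₂⟩ := H' g' (g'.up hv' hv) (lcons (hC (by simp))
    (l4 (hC (by simp)) (hC (by simp)) (hC (by simp)) (hC (by simp))))
  have a₁ : o α' ∈ g'.N := hC (by simp)
  have a₂ : o β' ∈ g'.N := hC (by simp)
  have b₁ := h₁ g' hv' (hC (by simp)) (hC (by simp)) a₁
  have b₂ := h₂ g' hv' (hC (by simp)) (hC (by simp)) a₂
  obtain ⟨m₁, m₂, hlt⟩ := v.G_sub _ _ e
  have b₃ := k₂ _ _ _ (fun_mem k₁.1 b₂).2 (fun_mem k₁.1 b₁).2 (fun e => hlt.ne' (o_inj a₂ a₁ e))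
    (isUPair_upair a₂ a₁)
  obtain ⟨q, hq, n₁, n₂, e'⟩ := app_cN' (hC (by simp)) hlt a₂ a₁ b₃
  obtain ⟨r, -, h₅, h₆⟩ := g'.dir hq hv'
  exact col_zero e' ((h₅.G _ n₁ _ n₂).1 (h₆.G' e))

theorem no_long (hc : cN ∈ g.N) (hk : kN ∈ g.N) (hw : o om ∈ g.N) (ht : tN ∈ g.N) (B : g.M)
    (hB : ∀ x, g.E x B → g.E x (g.v kN)) (hO : HasOtp g.E B (g.v tN)) :
    ¬ Homog g.E (g.v cN) B (g.v (nN 1)) := by
  classical
  intro hH
  obtain ⟨f, hf, -, hm⟩ := hO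
  obtain ⟨e, he, he'⟩ := exists_seq_om
  have val : ∀ z, z ≤ om → ∃ y, o y ∈ g.N ∧ App g.E f (g.v (o z)) (g.v (o y)) := by
    intro z hz
    have h : g.E (g.v (o z)) (g.v tN) := by
      rw [E_t ht hw]
      rcases hz.lt_or_eq with h | rfl
      exacts [Or.inl ((o_lt (o_mem_om hw h) hw).2 h), Or.inr rfl]
    obtain ⟨b, hb, hab⟩ := fun_ex hf h
    obtain ⟨y, hy, rfl⟩ := (E_k hk).1 (hB b hb)
    exact ⟨y, hy, hab⟩
  obtain ⟨x, hxN, hx⟩ := val om le_rfl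
  choose y hyN hy using fun n => val (e n) (he' n).le
  have edge : ∀ {a b : X} {s t : g.M}, o a ∈ g.N → o b ∈ g.N → App g.E f s (g.v (o a)) →
      App g.E f t (g.v (o b)) → g.E s t → a < b ∧ ∃ p ∈ g.G, p.G b a := by
    intro a b s t ha hb h₁ h₂ h₃
    have hlt : a < b := (o_lt ha hb).1 (hm _ _ _ _ h₁ h₂ h₃)
    have := hH _ _ _ (fun_mem hf h₂).2 (fun_mem hf h₁).2 (fun e => hlt.ne' (o_inj hb ha e))
      (isUPair_upair hb ha)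
    obtain ⟨p, hp, -, -, e'⟩ := app_cN' hc hlt hb ha this
    exact ⟨hlt, p, hp, col_one e'⟩
  have e1 : ∀ n, ∃ p ∈ g.G, p.G x (y n) := fun n =>
    (edge (hyN n) hxN (hy n) hx ((o_lt (o_mem_om hw (he' n)) hw).2 (he' n))).2
  have e2 : ∀ m n, m < n → y m < y n ∧ ∃ p ∈ g.G, p.G (y n) (y m) := fun m n h =>
    edge (hyN m) (hyN n) (hy m) (hy n)
      ((o_lt (o_mem_om hw (he' m)) (o_mem_om hw (he' n))).2 (he h))
  have ymono : StrictMono y := fun m n h => (e2 m n h).1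
  have inG : ∀ z : X, (∃ p ∈ g.G, z ∈ p.a) → ∀ q ∈ g.G, ∃ r ∈ g.G, r ≤ q ∧ z ∈ r.a := by
    rintro z ⟨p, hp, hz⟩ q hq
    obtain ⟨r, hr, h₁, h₂⟩ := g.dir hp hq
    exact ⟨r, hr, h₂, h₁.a hz⟩
  have gG : ∀ {a b : X} {q : Cond}, q ∈ g.G → a ∈ q.a → b ∈ q.a → (∃ p ∈ g.G, p.G a b) →
      q.G a b := by
    rintro a b q hq ha hb ⟨p, hp, h⟩
    obtain ⟨r, -, h₁, h₂⟩ := g.dir hp hq
    exact (h₂.G a ha b hb).1 (h₁.G' h)
  have hxa : ∃ p ∈ g.G, x ∈ p.a := by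
    obtain ⟨p, hp, h⟩ := e1 0
    exact ⟨p, hp, (p.G_sub _ _ h).1⟩
  have hya : ∀ n, ∃ p ∈ g.G, y n ∈ p.a := fun n => by
    obtain ⟨p, hp, h⟩ := e1 n
    exact ⟨p, hp, (p.G_sub _ _ h).2.1⟩
  have hP : ∀ N : ℕ, ∃ p ∈ g.G, x ∈ p.a ∧ ∀ n < N, y n ∈ p.a := by
    intro N
    induction N with
    | zero => obtain ⟨p, hp, h⟩ := hxa; exact ⟨p, hp, h, by simp⟩
    | succ N ih =>
      obtain ⟨p, hp, h₁, h₂⟩ := ih
      obtain ⟨r, hr, h₃, h₄⟩ := inG _ (hya N) p hp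
      refine ⟨r, hr, h₃.a h₁, fun n hn => ?_⟩
      rcases Nat.lt_succ_iff_lt_or_eq.1 hn with h | rfl
      exacts [h₃.a (h₂ n h), h₄]
  choose P hP₁ hP₂ hP₃ using hP
  have hcl : ∀ N, (P N).Cl x ((Finset.range N).image y) := by
    intro N
    refine ⟨hP₂ N, fun z hz => ?_, fun z hz z' hz' l => ?_⟩
    · obtain ⟨n, hn, rfl⟩ := Finset.mem_image.1 hz
      exact gG (hP₁ N) (hP₂ N) (hP₃ N n (Finset.mem_range.1 hn)) (e1 n)
    · obtain ⟨n, hn, rfl⟩ := Finset.mem_image.1 hz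
      obtain ⟨m, hm, rfl⟩ := Finset.mem_image.1 hz'
      exact gG (hP₁ N) (hP₃ N n (Finset.mem_range.1 hn)) (hP₃ N m (Finset.mem_range.1 hm))
        (e2 m n (ymono.lt_iff_lt.1 l)).2
  have hdec : StrictAnti fun N => (P N).ρ x ((Finset.range N).image y) := by
    refine strictAnti_nat_of_succ_lt fun N => ?_
    obtain ⟨r, -, h₁, h₂⟩ := g.dir (hP₁ N) (hP₁ (N + 1))
    rw [← h₁.ρ _ _ (hcl N), ← h₂.ρ _ _ (hcl (N + 1))]
    refine r.dec _ _ _ (h₂.cl (hcl (N + 1))) ?_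
    rw [Finset.range_add_one, Finset.image_insert]
    refine Finset.ssubset_insert fun hN => ?_
    obtain ⟨m, hm, e⟩ := Finset.mem_image.1 hN
    exact (Finset.mem_range.1 hm).ne (ymono.injective e)
  exact not_strictAnti_of_wellFoundedLT _ hdec

theorem main : ∃ (M : Type 1) (E : M → M → Prop), IsZFC E ∧ ∃ w t k : M,
    IsOmega E w ∧ (∀ x, E x t ↔ E x w ∨ x = w) ∧ IsCard E k ∧ E w k ∧
    (∀ f, IsFun E f w k → ∃ b, E b k ∧ ∀ n y, App E f n y → E y b) ∧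
    ¬ Arrow E k t := by
  obtain ⟨g, -, hC⟩ := exists_gen (⊤ : Cond) {cN, DN, o om, tN, kN} (Set.toFinite _).countable
  have hc : cN ∈ g.N := hC (by simp)
  have hD : DN ∈ g.N := hC (by simp)
  have hw : o om ∈ g.N := hC (by simp)
  have ht : tN ∈ g.N := hC (by simp)
  have hk : kN ∈ g.N := hC (by simp)
  refine ⟨g.M, g.E, g.isZFC, g.v (o om), g.v tN, g.v kN, isOmega_om hw, E_t ht hw, isCard_k hk,
    (E_k hk).2 ⟨_, hw, rfl⟩, bounded hk hw, fun h => ?_⟩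
  rcases h (g.v DN) (g.v (nN 0)) (g.v (nN 1)) (g.v (nN 2)) (g.v cN) (E_D hD hk)
    (fun x hx => by simpa using E_nN.1 hx) (fun x => by rw [E_nN]; simp [eq_comm])
    (fun x => by
      rw [E_nN]
      constructor
      · rintro ⟨j, hj, rfl⟩
        interval_cases j <;> simp
      · rintro (rfl | rfl)
        exacts [⟨0, by norm_num, rfl⟩, ⟨1, by norm_num, rfl⟩])
    (isFun_cN hc hD) with ⟨A, h₁, ⟨f, h₂⟩, h₃⟩ | ⟨B, h₁, h₂, h₃⟩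
  · exact no_large hc hk A f h₁ h₂ h₃
  · exact no_long hc hk hw ht B h₁ h₂ h₃

end Pool.Agent.MP_e34318_lc
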